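import Mathlib
import Pool.Agent.Helper27_BHT.Fin
import Pool.Agent.Helper36_BHT.A1
import Pool.Agent.Helper36_BHT.N1
import Pool.Agent.Helper70_BHT.G
import Pool.Agent.Helper75_BHT.A2
import Pool.Agent.Helper75_BHT.Bnd
import Pool.Agent.Helper75_BHT.Ev
import Pool.Agent.Helper75_BHT.Gal
import Pool.Agent.Helper75_BHT.H2
import Pool.Agent.Helper75_BHT.Scl
import Pool.Agent.Helper76_BHT.Ncs
import Pool.Agent.Helper76_BHT.T2
import Pool.Agent.Helper81_BHT.H1

/-!
# Bounded height of the torsion parameters in a family over a base of dimension `g`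

For `m = g + 1 ≥ 2` consider the curves `y² = x^(2m) + r(x)`, `0 ≠ r`, `deg r < m`, of genus `g`,
with their two points at infinity, and the point `P_r = [∞₊ - ∞₋]` of the Jacobian. The base, the
weighted projective space of the coefficients of `r`, has dimension `g`. The point `P_r` satisfies
`N P_r = 0` if and only if the polynomial Pell equation `u² - (x^(2m) + r) w² = c` has a solution
with `deg u = N` (`BHT.Pell`).

* The parameters `r` over all number fields for which `P_r` is torsion have bounded height.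
* For each `d` there are, up to weighted scaling, only finitely many such `r` over fields of
  degree at most `d`.
* The order of `P_r`, if finite, is at most `B(g, d)` for all number fields of degree at most `d`.
-/

open Polynomial NumberField

namespace Pool.Agent.Results.MP_160b6c_nt.InfinityTorsionHeight

theorem result (m : ℕ) (hm : 2 ≤ m) :
    (∃ H : ℝ, ∀ (K : Type) [Field K] [NumberField K] (r : K[X]), r ≠ 0 → r.natDegree < m →
      (∃ N, BHT.Pell (X ^ (2 * m) + r) N) →
      Height.mulHeight (fun j : Fin m => r.coeff j ^ ((2 * m).factorial / (2 * m - j))) ≤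
        H ^ (Module.finrank ℚ K)) ∧
    (∀ d : ℕ, ∃ S : Finset (Fin m → AlgebraicClosure ℚ),
      ∀ (K : Type) [Field K] [NumberField K], Module.finrank ℚ K ≤ d →
      ∀ r : K[X], r ≠ 0 → r.natDegree < m → (∃ N, BHT.Pell (X ^ (2 * m) + r) N) →
      ∀ φ : K →+* AlgebraicClosure ℚ, ∃ s ∈ S, ∃ t : AlgebraicClosure ℚ, t ≠ 0 ∧
        ∀ j : Fin m, φ (r.coeff j) = t ^ (2 * m - (j : ℕ)) * s j) ∧
    (∀ d : ℕ, ∃ B : ℕ, ∀ (K : Type) [Field K] [NumberField K], Module.finrank ℚ K ≤ d →
      ∀ r : K[X], r ≠ 0 → r.natDegree < m →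
      (∃ N, BHT.Pell (X ^ (2 * m) + r) N) → ∃ N ≤ B, BHT.Pell (X ^ (2 * m) + r) N) := by
  have hH1 : BHT.H1Stmt := BHT.h1 BHT.H36.a1 BHT.a2 Helper70_BHT.g1
  have hH2K : BHT.H2KStmt := BHT.h2k (BHT.h2 BHT.H36.n1 Helper70_BHT.g2) BHT.ev
  have hT2 : BHT.T2Stmt := H76BHT.t2 hH1 hH2K
  refine ⟨hT2 m hm, fun d => BHT.finite_params hT2 H76BHT.ncs m d hm, fun d => ?_⟩
  exact BHT.bnd hT2 H76BHT.ncs BHT.gal BHT.scl m d hm

end Pool.Agent.Results.MP_160b6c_nt.InfinityTorsionHeight
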