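import Mathlib
import Pool.Agent.Helper41_Ban.FinLo
import Pool.Agent.Helper23_TS.Nv
import Pool.Agent.Helper23_TS.Nb
import Pool.Agent.Helper23_TS.Gl
import Pool.Agent.Helper39_TS.Rf2

/-!
# Uniform boundedness for the two points at infinity, root field of `h` bounded, all `r`

Let `n = g + 1` be a prime number, `K` a number field, `Δ` a bound. There is `P` such that for
every extension `L / K` of degree `n` with `|disc L| ≤ Δ`, every extension `K₁ / K` whose degree
is not divisible by `n`, every `θ` in the compositum `L₁ = L K₁`, not in `K₁` (`h` the minimal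
polynomial of `θ` over `K₁`), and **every** polynomial `r` over `K₁` of degree at most `g` with
`h² + 4 r` squarefree, the class of `∞₀ - ∞₁`, a `K₁`-rational point of the Jacobian (of
dimension `g`) of `y² + h(x) y = r(x)`, has infinite order or order at most `P ^ [K₁ : ℚ]`.
-/

open Polynomial NumberField

namespace Pool.Agent.Results.MP_160b6c_nt.RootFieldInfinity

theorem result (K : Type) [Field K] [NumberField K] (g Δ : ℕ) (hg : (g + 1).Prime) :
    ∃ P : ℕ, ∀ (L : Type) [Field L] [NumberField L] [Algebra K L],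
      Module.finrank K L = g + 1 → |NumberField.discr L| ≤ Δ →
      ∀ (K₁ L₁ : Type) [Field K₁] [NumberField K₁] [Field L₁] [NumberField L₁]
        [Algebra K K₁] [Algebra K₁ L₁] [Algebra K L₁] [IsScalarTower K K₁ L₁],
        Nonempty (L →ₐ[K] L₁) → ¬ (g + 1) ∣ Module.finrank K K₁ →
        Module.finrank K₁ L₁ = g + 1 →
      ∀ θ : L₁, θ ∉ (algebraMap K₁ L₁).range →
      ∀ C : H12UBI.Curve g K₁, C.h = minpoly K₁ θ →
        orderOf C.infty ≤ P ^ Module.finrank ℚ K₁ :=
  Pool.Agent.TS.H39.rf2 (Pool.Agent.TS.gl (Pool.Agent.TS.nb (Pool.Agent.TS.nv H41Ban.lo)))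
    K g Δ hg

end Pool.Agent.Results.MP_160b6c_nt.RootFieldInfinity
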